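import Mathlib
import Pool.Agent.V7H99.CD.B4

set_option autoImplicit false

/-!
# The squarefree congruent numbers are dense in the squarefree numbers of the classes `5, 6, 7`
modulo `8`, for the topology of all polynomial characters

For every squarefree `s ≡ 5, 6, 7 (mod 8)`, all real polynomials `f₁, …, f_r`, every `ε > 0` and every
modulus `M` there are, for all large `X`, at least `c X ^ (1 / 3)` squarefree congruent numbers `n ≤ X`
with `n ≡ s` modulo `8 M` and `‖f_i(n) - f_i(s)‖ < ε` for all `i`.  Consequently, for every real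
polynomial `f` with irrational leading coefficient, every class `a ≡ 5, 6, 7 (mod 8)` modulo `8 M`
containing a squarefree number and all large `X` there are at least `c X ^ (1 / 3)` squarefree
congruent numbers `n ≤ X`, `n ≡ a` modulo `8 M`, with `‖f(n)‖ < ε`.

The proof is in `Pool/Agent/V7H99/CD` (helper99), which treats all classes at once: the numbers are
`n = u (W² u - 1) (W² u + 1)`, `u = W ⁴ (v + 1) - n₀`, so `n ≡ n₀ ≡ s` modulo a prescribed modulus,
chosen as a multiple of the denominators of all rational coefficients of the finitely many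
combinations `h · f`, `|h| ≤ N`.  The weight `∏ ((1 + cos 2 π (f_i(n) - f_i(s))) / 2) ^ N` has
nonnegative Fourier coefficients; the frequencies for which `h · f` has only rational coefficients
contribute a positive mean value, the others are removed by Weyl's theorem.
-/

namespace Pool.Agent.Results.MP_8efaaa_nt.BohrRecurrenceH99

open Polynomial

/-- `x² + a y² = z²`, `x² - a y² = t²` is solvable in positive integers -/
def Congruent (a : ℕ) : Prop :=
  ∃ x y z t : ℕ, 0 < x ∧ 0 < y ∧ 0 < z ∧ 0 < t ∧ x ^ 2 + a * y ^ 2 = z ^ 2 ∧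
    x ^ 2 = a * y ^ 2 + t ^ 2

/-- the distance of `x` to the nearest integer is less than `ε` -/
def Near (x ε : ℝ) : Prop := ∃ z : ℤ, |x - z| < ε

lemma congruent_of (n : ℕ) (h : Pool.Agent.V7H99.CD.Cong n) : Congruent n := by
  obtain ⟨a, b, c, ha, hb, hc, h1, h2⟩ := h
  -- common denominator
  obtain ⟨A, B, C, D, hA, hB, hC, hD, eA, eB, eC⟩ : ∃ A B C D : ℕ, 0 < A ∧ 0 < B ∧ 0 < C ∧
      0 < D ∧ a = (A : ℚ) / D ∧ b = (B : ℚ) / D ∧ c = (C : ℚ) / D := by
    have na : (0 : ℤ) < a.num := Rat.num_pos.2 ha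
    have nb : (0 : ℤ) < b.num := Rat.num_pos.2 hb
    have nc : (0 : ℤ) < c.num := Rat.num_pos.2 hc
    have ea : ((a.num.natAbs : ℕ) : ℚ) = a.num := by
      rw [Nat.cast_natAbs, abs_of_pos na]
    have eb : ((b.num.natAbs : ℕ) : ℚ) = b.num := by
      rw [Nat.cast_natAbs, abs_of_pos nb]
    have ec : ((c.num.natAbs : ℕ) : ℚ) = c.num := by
      rw [Nat.cast_natAbs, abs_of_pos nc]
    have da : (a.den : ℚ) ≠ 0 := by exact_mod_cast a.den_nz
    have db : (b.den : ℚ) ≠ 0 := by exact_mod_cast b.den_nz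
    have dc : (c.den : ℚ) ≠ 0 := by exact_mod_cast c.den_nz
    have qa := Rat.num_div_den a
    have qb := Rat.num_div_den b
    have qc := Rat.num_div_den c
    refine ⟨a.num.natAbs * (b.den * c.den), b.num.natAbs * (a.den * c.den),
      c.num.natAbs * (a.den * b.den), a.den * b.den * c.den, ?_, ?_, ?_, ?_, ?_, ?_, ?_⟩
    · have := a.pos; have := b.pos; have := c.pos
      have : 0 < a.num.natAbs := by omega
      positivity
    · have := a.pos; have := b.pos; have := c.pos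
      have : 0 < b.num.natAbs := by omega
      positivity
    · have := a.pos; have := b.pos; have := c.pos
      have : 0 < c.num.natAbs := by omega
      positivity
    · have := a.pos; have := b.pos; have := c.pos
      positivity
    · push_cast
      rw [ea]
      nth_rewrite 1 [← qa]
      field_simp
    · push_cast
      rw [eb]
      nth_rewrite 1 [← qb]
      field_simp
    · push_cast
      rw [ec]
      nth_rewrite 1 [← qc]
      field_simp
  have hDq : (D : ℚ) ≠ 0 := by positivity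
  rw [eA, eB, eC] at h1
  rw [eA, eB] at h2
  have g1 : A ^ 2 + B ^ 2 = C ^ 2 := by
    have : (A : ℚ) ^ 2 + (B : ℚ) ^ 2 = (C : ℚ) ^ 2 := by
      field_simp at h1
      exact h1
    exact_mod_cast this
  have g2 : 2 * n * D ^ 2 = A * B := by
    have : 2 * (n : ℚ) * (D : ℚ) ^ 2 = A * B := by
      field_simp at h2
      linarith
    exact_mod_cast this
  have hne : A ≠ B := by
    intro hAB
    rw [hAB] at g1
    have g3 : (2 : ℕ) * B ^ 2 = C ^ 2 := by omega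
    have h4 : Irrational (Real.sqrt 2) := irrational_sqrt_two
    apply h4
    refine ⟨(C : ℚ) / B, ?_⟩
    have hB' : (B : ℝ) ≠ 0 := by positivity
    push_cast
    symm
    rw [Real.sqrt_eq_iff_mul_self_eq (by norm_num) (by positivity)]
    have : (2 : ℝ) * (B : ℝ) ^ 2 = (C : ℝ) ^ 2 := by exact_mod_cast g3
    field_simp
    linarith
  rcases lt_or_gt_of_ne hne with hlt | hlt
  · obtain ⟨s, rfl⟩ := Nat.exists_eq_add_of_lt hlt
    refine ⟨C, 2 * D, 2 * A + s + 1, s + 1, hC, by positivity, by positivity, by positivity, ?_, ?_⟩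
    · nlinarith
    · nlinarith
  · obtain ⟨s, rfl⟩ := Nat.exists_eq_add_of_lt hlt
    refine ⟨C, 2 * D, 2 * B + s + 1, s + 1, hC, by positivity, by positivity, by positivity, ?_, ?_⟩
    · nlinarith
    · nlinarith

/-- **Recurrence of every polynomial Bohr neighbourhood of a squarefree number `≡ 5, 6, 7`
modulo `8`.** -/
theorem result :
    (∀ (r : ℕ) (f : Fin r → ℝ[X]) (ε : ℝ), 0 < ε → ∀ M s : ℕ, 0 < M → Squarefree s →
      (s % 8 = 5 ∨ s % 8 = 6 ∨ s % 8 = 7) → ∃ c : ℝ, 0 < c ∧ ∃ X₀ : ℝ, ∀ X : ℝ, X₀ ≤ X →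
      c * X ^ (1 / 3 : ℝ) ≤ ({n : ℕ | (n : ℝ) ≤ X ∧ Squarefree n ∧ n ≡ s [MOD 8 * M] ∧
        (n % 8 = 5 ∨ n % 8 = 6 ∨ n % 8 = 7) ∧ Congruent n ∧
        ∀ i, Near ((f i).eval (n : ℝ) - (f i).eval (s : ℝ)) ε}.ncard : ℝ)) ∧
    (∀ f : ℝ[X], 1 ≤ f.natDegree → Irrational f.leadingCoeff → ∀ ε : ℝ, 0 < ε →
      ∀ M a : ℕ, 0 < M → (a % 8 = 5 ∨ a % 8 = 6 ∨ a % 8 = 7) →
      (∃ s : ℕ, Squarefree s ∧ s ≡ a [MOD 8 * M]) →
      ∃ c : ℝ, 0 < c ∧ ∃ X₀ : ℝ, ∀ X : ℝ, X₀ ≤ X →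
      c * X ^ (1 / 3 : ℝ) ≤ ({n : ℕ | (n : ℝ) ≤ X ∧ Squarefree n ∧ n ≡ a [MOD 8 * M] ∧
        (n % 8 = 5 ∨ n % 8 = 6 ∨ n % 8 = 7) ∧ Congruent n ∧
        Near (f.eval (n : ℝ)) ε}.ncard : ℝ)) := by
  have hmod : ∀ M a n : ℕ, n ≡ a [MOD 8 * M] → n % 8 = a % 8 := fun M a n h =>
    h.of_dvd (dvd_mul_right 8 M)
  refine ⟨?_, ?_⟩
  · intro r f ε hε M s hM hs hs8
    obtain ⟨c, hc, X₀, h⟩ := Pool.Agent.V7H99.CD.bohr f ε hε (8 * M) s (by omega) hs
    refine ⟨c, hc, X₀, fun X hX => (h X hX).trans ?_⟩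
    have hfin : {n : ℕ | (n : ℝ) ≤ X ∧ Squarefree n ∧ n ≡ s [MOD 8 * M] ∧
        (n % 8 = 5 ∨ n % 8 = 6 ∨ n % 8 = 7) ∧ Congruent n ∧
        ∀ i, Near ((f i).eval (n : ℝ) - (f i).eval (s : ℝ)) ε}.Finite := by
      apply (Set.finite_Iic ⌊X⌋₊).subset
      intro n hn
      exact Nat.le_floor hn.1
    have hsub : {n : ℕ | (n : ℝ) ≤ X ∧ Squarefree n ∧ n ≡ s [MOD 8 * M] ∧
        Pool.Agent.V7H99.CD.Cong n ∧
        ∀ i, ∃ z : ℤ, |(f i).eval (n : ℝ) - (f i).eval (s : ℝ) - z| < ε} ⊆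
        {n : ℕ | (n : ℝ) ≤ X ∧ Squarefree n ∧ n ≡ s [MOD 8 * M] ∧
        (n % 8 = 5 ∨ n % 8 = 6 ∨ n % 8 = 7) ∧ Congruent n ∧
        ∀ i, Near ((f i).eval (n : ℝ) - (f i).eval (s : ℝ)) ε} := by
      rintro n ⟨h1, h2, h3, h4, h5⟩
      exact ⟨h1, h2, h3, by rw [hmod M s n h3]; exact hs8, congruent_of n h4, h5⟩
    exact_mod_cast Set.ncard_le_ncard hsub hfin
  · rintro f hf hirr ε hε M a hM ha ⟨s, hs, hsa⟩
    obtain ⟨c, hc, X₀, h⟩ :=
      Pool.Agent.V7H99.CD.bohr_one f hf hirr ε hε (8 * M) s (by omega) hs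
    refine ⟨c, hc, X₀, fun X hX => (h X hX).trans ?_⟩
    have hfin : {n : ℕ | (n : ℝ) ≤ X ∧ Squarefree n ∧ n ≡ a [MOD 8 * M] ∧
        (n % 8 = 5 ∨ n % 8 = 6 ∨ n % 8 = 7) ∧ Congruent n ∧ Near (f.eval (n : ℝ)) ε}.Finite := by
      apply (Set.finite_Iic ⌊X⌋₊).subset
      intro n hn
      exact Nat.le_floor hn.1
    have hsub : {n : ℕ | (n : ℝ) ≤ X ∧ Squarefree n ∧ n ≡ s [MOD 8 * M] ∧
        Pool.Agent.V7H99.CD.Cong n ∧ ∃ z : ℤ, |f.eval (n : ℝ) - z| < ε} ⊆
        {n : ℕ | (n : ℝ) ≤ X ∧ Squarefree n ∧ n ≡ a [MOD 8 * M] ∧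
        (n % 8 = 5 ∨ n % 8 = 6 ∨ n % 8 = 7) ∧ Congruent n ∧ Near (f.eval (n : ℝ)) ε} := by
      rintro n ⟨h1, h2, h3, h4, h5⟩
      have h10 := h3.trans hsa
      exact ⟨h1, h2, h10, by rw [hmod M a n h10]; exact ha, congruent_of n h4, h5⟩
    exact_mod_cast Set.ncard_le_ncard hsub hfin

end Pool.Agent.Results.MP_8efaaa_nt.BohrRecurrenceH99
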