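import Pool.Agent.V7H17.CC.Many

set_option autoImplicit false

/-!
# Clusters of squarefree congruent numbers: every pattern of classes occurs in short windows

For every modulus `8 q` there is `c > 0` such that for all large `L` and all `X ≥ L / c` at least
`c X ^ (1/4)` windows `[x - L, x]` with `x ≤ X` contain every pattern of `k ≤ c L ^ (1/4)` residue
classes: for all squarefree `s₁, ..., s_k` there are squarefree congruent numbers `n₁ < ... < n_k`
in the window with `n_i ≡ s_i` modulo `8 q`.

Proof.  `(t ^ 4 - m ^ 4) / w ^ 2` is a congruent number if it is an integer (and `0 < m < t`).  Let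
`w = 8 u` be a square divisible by `8 q` and `Q = w ^ 3 P`, `P` the product of the primes `p ≤ z`
which do not divide `w`.  If `t ≡ 1` modulo `w ^ 3` and `t ≡ 0` modulo `P`, then for every squarefree
`a` there is a class `M` modulo `Q` such that `(t ^ 4 - m ^ 4) / w ^ 2 ≡ a` modulo `w` for all
`m ≡ M` modulo `Q`, and no square of a prime dividing `Q` divides this number.  For `m = M + Q j`
with `j < J`, `Q (J + 1) ≤ L ^ (1/4)`, all these numbers, for all classes, lie in the window of
length `L` below `t ^ 4 / w ^ 2`.  A prime `p > z` which does not divide `m` has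
`p ^ 2 ∣ (t - m) (t + m) (t ^ 2 + m ^ 2)` for at most four classes of `t` modulo `p ^ 2`; if `p ∣ m`,
then `p ∣ t`, and such pairs `(j, t)` are rare on average over `j` and `t`.  So for at least half of
the `t` at least half of the `j < J` give squarefree numbers for all classes modulo `8 q` at once, and
the numbers decrease with `j`, whatever the class is.
-/

namespace Pool.Agent.Results.MP_8efaaa_nt.ClustersH17

/-- `x² + a y² = z²`, `x² - a y² = t²` is solvable in positive integers -/
def Congruent (a : ℕ) : Prop :=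
  ∃ x y z t : ℕ, 0 < x ∧ 0 < y ∧ 0 < z ∧ 0 < t ∧ x ^ 2 + a * y ^ 2 = z ^ 2 ∧
    x ^ 2 = a * y ^ 2 + t ^ 2

/-- **Every pattern of classes of squarefree numbers occurs among the squarefree congruent numbers of
many short windows.** -/
theorem result (q : ℕ) (hq : 0 < q) :
    ∃ c : ℝ, 0 < c ∧ ∃ L₀ : ℕ, ∀ L : ℕ, L₀ ≤ L → ∀ X : ℝ, (L : ℝ) ≤ c * X →
      c * X ^ (1 / 4 : ℝ) ≤
        ({x : ℕ | (x : ℝ) ≤ X ∧ ∀ k : ℕ, (k : ℝ) ≤ c * (L : ℝ) ^ (1 / 4 : ℝ) → ∀ s : Fin k → ℕ,
          (∀ i, Squarefree (s i)) → ∃ n : Fin k → ℕ, StrictMono n ∧ ∀ i, n i ≤ x ∧ x ≤ n i + L ∧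
            Squarefree (n i) ∧ n i ≡ s i [MOD 8 * q] ∧ Congruent (n i)}.ncard : ℝ) :=
  Pool.Agent.V7H17.CC.many (8 * q) (by omega)

end Pool.Agent.Results.MP_8efaaa_nt.ClustersH17
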