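import Mathlib
import Pool.Agent.V7H99.CD.M4

set_option autoImplicit false

/-!
# Diophantine approximation with almost prime congruent numbers of the classes `5, 6, 7` modulo `8`

Let `k ≥ 1`.  There is `R` such that for every real polynomial `f` of degree `k` with irrational
leading coefficient and every residue class `a ≡ 5, 6, 7 (mod 8)` modulo `8 M` which contains a
squarefree number there are infinitely many squarefree congruent numbers `n ≡ a` modulo `8 M` with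
`‖f(n)‖ ≤ n ^ (-1 / R)` and `n = (a, 8 M) m`, where `m` has at most `R` prime factors, all of them
larger than `n ^ (1 / R)`.  The quantitative form: if `0 < ε ≤ 1 / 3`, `|α - b / Q| ≤ 1 / Q ^ 2` with
`(b, Q) = 1` and `X ^ ε ≤ Q ≤ X ^ (k - ε)`, then there are at least `X ^ (1 / 3 - ε)` such numbers
`n ≤ X`, uniformly in the moduli `8 M ≤ X ^ (1 / R)`, the classes and all the polynomials `f` with
leading coefficient `α`.  (If `a` is prime to `8 M` one can also use Heegner's primes; here all the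
classes, e.g. those of multiples of a given squarefree number, are reached.)

The proof is in `Pool/Agent/V7H99/CD` (helper99), which treats all classes at once: the numbers are
`n = u (W² u - 1) (W² u + 1)`, `u = W ⁴ (v + 1) - n₀`, weighted by `((1 + cos 2 π f(n)) / 2) ^ N`;
Weyl's inequality on progressions, the fundamental lemma of the sieve.
-/

namespace Pool.Agent.Results.MP_8efaaa_nt.DiophantineApproximationH99

open Polynomial

/-- `x² + a y² = z²`, `x² - a y² = t²` is solvable in positive integers -/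
def Congruent (a : ℕ) : Prop :=
  ∃ x y z t : ℕ, 0 < x ∧ 0 < y ∧ 0 < z ∧ 0 < t ∧ x ^ 2 + a * y ^ 2 = z ^ 2 ∧
    x ^ 2 = a * y ^ 2 + t ^ 2

/-- `m` has at most `R` prime factors (with multiplicity), all of them larger than `X ^ (1 / R)` -/
def AlmostPrime (R : ℕ) (X : ℝ) (m : ℕ) : Prop :=
  m.primeFactorsList.length ≤ R ∧
    ∀ p : ℕ, p.Prime → p ∣ m → X ^ (1 / (R : ℝ)) < (p : ℝ)

/-- the distance of `x` to the nearest integer is at most `δ` -/
def Near (x δ : ℝ) : Prop := ∃ z : ℤ, |x - z| ≤ δ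

lemma congruent_of (n : ℕ) (h : Pool.Agent.V7H99.CD.Cong n) : Congruent n := by
  obtain ⟨a, b, c, ha, hb, hc, h1, h2⟩ := h
  -- common denominator
  obtain ⟨A, B, C, D, hA, hB, hC, hD, eA, eB, eC⟩ : ∃ A B C D : ℕ, 0 < A ∧ 0 < B ∧ 0 < C ∧
      0 < D ∧ a = (A : ℚ) / D ∧ b = (B : ℚ) / D ∧ c = (C : ℚ) / D := by
    have na : (0 : ℤ) < a.num := Rat.num_pos.2 ha
    have nb : (0 : ℤ) < b.num := Rat.num_pos.2 hb
    have nc : (0 : ℤ) < c.num := Rat.num_pos.2 hc
    have ea : ((a.num.natAbs : ℕ) : ℚ) = a.num := by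
      rw [Nat.cast_natAbs, abs_of_pos na]
    have eb : ((b.num.natAbs : ℕ) : ℚ) = b.num := by
      rw [Nat.cast_natAbs, abs_of_pos nb]
    have ec : ((c.num.natAbs : ℕ) : ℚ) = c.num := by
      rw [Nat.cast_natAbs, abs_of_pos nc]
    have da : (a.den : ℚ) ≠ 0 := by exact_mod_cast a.den_nz
    have db : (b.den : ℚ) ≠ 0 := by exact_mod_cast b.den_nz
    have dc : (c.den : ℚ) ≠ 0 := by exact_mod_cast c.den_nz
    have qa := Rat.num_div_den a
    have qb := Rat.num_div_den b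
    have qc := Rat.num_div_den c
    refine ⟨a.num.natAbs * (b.den * c.den), b.num.natAbs * (a.den * c.den),
      c.num.natAbs * (a.den * b.den), a.den * b.den * c.den, ?_, ?_, ?_, ?_, ?_, ?_, ?_⟩
    · have := a.pos; have := b.pos; have := c.pos
      have : 0 < a.num.natAbs := by omega
      positivity
    · have := a.pos; have := b.pos; have := c.pos
      have : 0 < b.num.natAbs := by omega
      positivity
    · have := a.pos; have := b.pos; have := c.pos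
      have : 0 < c.num.natAbs := by omega
      positivity
    · have := a.pos; have := b.pos; have := c.pos
      positivity
    · push_cast
      rw [ea]
      nth_rewrite 1 [← qa]
      field_simp
    · push_cast
      rw [eb]
      nth_rewrite 1 [← qb]
      field_simp
    · push_cast
      rw [ec]
      nth_rewrite 1 [← qc]
      field_simp
  have hDq : (D : ℚ) ≠ 0 := by positivity
  rw [eA, eB, eC] at h1
  rw [eA, eB] at h2
  have g1 : A ^ 2 + B ^ 2 = C ^ 2 := by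
    have : (A : ℚ) ^ 2 + (B : ℚ) ^ 2 = (C : ℚ) ^ 2 := by
      field_simp at h1
      exact h1
    exact_mod_cast this
  have g2 : 2 * n * D ^ 2 = A * B := by
    have : 2 * (n : ℚ) * (D : ℚ) ^ 2 = A * B := by
      field_simp at h2
      linarith
    exact_mod_cast this
  have hne : A ≠ B := by
    intro hAB
    rw [hAB] at g1
    have g3 : (2 : ℕ) * B ^ 2 = C ^ 2 := by omega
    have h4 : Irrational (Real.sqrt 2) := irrational_sqrt_two
    apply h4
    refine ⟨(C : ℚ) / B, ?_⟩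
    have hB' : (B : ℝ) ≠ 0 := by positivity
    push_cast
    symm
    rw [Real.sqrt_eq_iff_mul_self_eq (by norm_num) (by positivity)]
    have : (2 : ℝ) * (B : ℝ) ^ 2 = (C : ℝ) ^ 2 := by exact_mod_cast g3
    field_simp
    linarith
  rcases lt_or_gt_of_ne hne with hlt | hlt
  · obtain ⟨s, rfl⟩ := Nat.exists_eq_add_of_lt hlt
    refine ⟨C, 2 * D, 2 * A + s + 1, s + 1, hC, by positivity, by positivity, by positivity, ?_, ?_⟩
    · nlinarith
    · nlinarith
  · obtain ⟨s, rfl⟩ := Nat.exists_eq_add_of_lt hlt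
    refine ⟨C, 2 * D, 2 * B + s + 1, s + 1, hC, by positivity, by positivity, by positivity, ?_, ?_⟩
    · nlinarith
    · nlinarith

/-- **Diophantine approximation with almost prime congruent numbers of the classes `5, 6, 7`.** -/
theorem result (k : ℕ) (hk : 1 ≤ k) :
    (∀ ε : ℝ, 0 < ε → ε ≤ 1 / 3 → ∃ R : ℕ, 1 ≤ R ∧ ∃ X₀ : ℝ, ∀ X : ℝ, X₀ ≤ X →
      ∀ M a : ℕ, 0 < M → (8 * M : ℝ) ≤ X ^ (1 / (R : ℝ)) → (a % 8 = 5 ∨ a % 8 = 6 ∨ a % 8 = 7) →
      (∃ s : ℕ, Squarefree s ∧ s ≡ a [MOD 8 * M]) → ∀ f : ℝ[X], f.natDegree ≤ k →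
      ∀ (b : ℤ) (Q : ℕ), IsCoprime b (Q : ℤ) → X ^ ε ≤ Q → (Q : ℝ) ≤ X ^ ((k : ℝ) - ε) →
      |f.coeff k - b / Q| ≤ 1 / (Q : ℝ) ^ 2 →
      X ^ (1 / 3 - ε) ≤ ({n : ℕ | (n : ℝ) ≤ X ∧ Squarefree n ∧ (n % 8 = 5 ∨ n % 8 = 6 ∨ n % 8 = 7) ∧
        n ≡ a [MOD 8 * M] ∧ Congruent n ∧ Near (f.eval (n : ℝ)) (X ^ (-(1 / (R : ℝ)))) ∧
        ∃ m, n = Nat.gcd a (8 * M) * m ∧ AlmostPrime R X m}.ncard : ℝ)) ∧
    (∃ R : ℕ, 1 ≤ R ∧ ∀ f : ℝ[X], f.natDegree ≤ k → Irrational (f.coeff k) →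
      ∀ M a : ℕ, 0 < M → (a % 8 = 5 ∨ a % 8 = 6 ∨ a % 8 = 7) →
      (∃ s : ℕ, Squarefree s ∧ s ≡ a [MOD 8 * M]) →
      {n : ℕ | Squarefree n ∧ (n % 8 = 5 ∨ n % 8 = 6 ∨ n % 8 = 7) ∧ n ≡ a [MOD 8 * M] ∧
        Congruent n ∧ Near (f.eval (n : ℝ)) ((n : ℝ) ^ (-(1 / (R : ℝ)))) ∧
        ∃ m, n = Nat.gcd a (8 * M) * m ∧ AlmostPrime R n m}.Infinite) := by
  have hmod : ∀ M a n : ℕ, n ≡ a [MOD 8 * M] → n % 8 = a % 8 := fun M a n h =>
    h.of_dvd (dvd_mul_right 8 M)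
  have hgcd : ∀ M s a : ℕ, s ≡ a [MOD M] → Nat.gcd s M = Nat.gcd a M := fun M s a h => h.gcd_eq
  refine ⟨?_, ?_⟩
  · intro ε hε hε1
    obtain ⟨R, hR, X₀, h⟩ := Pool.Agent.V7H99.CD.main k hk ε hε hε1
    refine ⟨R, hR, X₀, ?_⟩
    rintro X hX M a hM hMX ha ⟨s, hs, hsa⟩ f hf b Q hbQ hQ1 hQ2 hα
    refine (h X hX (8 * M) s (by omega) (by push_cast; exact hMX) hs f hf b Q hbQ hQ1 hQ2 hα).trans ?_
    have hfin : {n : ℕ | (n : ℝ) ≤ X ∧ Squarefree n ∧ (n % 8 = 5 ∨ n % 8 = 6 ∨ n % 8 = 7) ∧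
        n ≡ a [MOD 8 * M] ∧ Congruent n ∧ Near (f.eval (n : ℝ)) (X ^ (-(1 / (R : ℝ)))) ∧
        ∃ m, n = Nat.gcd a (8 * M) * m ∧ AlmostPrime R X m}.Finite := by
      apply (Set.finite_Iic ⌊X⌋₊).subset
      intro n hn
      exact Nat.le_floor hn.1
    have hsub : Pool.Agent.V7H99.CD.TS R (8 * M) s X f ⊆ {n : ℕ | (n : ℝ) ≤ X ∧ Squarefree n ∧
        (n % 8 = 5 ∨ n % 8 = 6 ∨ n % 8 = 7) ∧ n ≡ a [MOD 8 * M] ∧ Congruent n ∧
        Near (f.eval (n : ℝ)) (X ^ (-(1 / (R : ℝ)))) ∧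
        ∃ m, n = Nat.gcd a (8 * M) * m ∧ AlmostPrime R X m} := by
      rintro n ⟨h1, h2, h3, h4, h5, h6, h7, m, h8, h9⟩
      have h10 := h4.trans hsa
      refine ⟨h2, h3, by rw [hmod M a n h10]; exact ha, h10, congruent_of n h6, h7, m, ?_, h9⟩
      rw [h8, hgcd (8 * M) s a hsa]
    exact_mod_cast Set.ncard_le_ncard hsub hfin
  · obtain ⟨R, hR, h⟩ := Pool.Agent.V7H99.CD.main_inf k hk
    refine ⟨R, hR, ?_⟩
    rintro f hf hirr M a hM ha ⟨s, hs, hsa⟩
    refine (h (8 * M) s (by omega) hs f hf hirr).mono ?_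
    rintro n ⟨h3, h4, h5, h6, h7, m, h8, h9⟩
    have h10 := h4.trans hsa
    refine ⟨h3, by rw [hmod M a n h10]; exact ha, h10, congruent_of n h6, h7, m, ?_, h9⟩
    rw [h8, hgcd (8 * M) s a hsa]

end Pool.Agent.Results.MP_8efaaa_nt.DiophantineApproximationH99
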