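import Pool.Agent.V7H64.CG.Fin
set_option autoImplicit false

/-!
# Squarefree congruent numbers in the classes `5, 6, 7` modulo `8` to large moduli

For all `q ≤ X ^ (1/4 - ε)` every residue class modulo `8 q` inside the classes `5, 6, 7` modulo `8`
which contains squarefree numbers contains at least `X ^ (1/2 - ε) / q` squarefree congruent numbers
`n ≤ X`; the least one is at most `C q ^ (4 + ε)`.

Proof.  `n = x y (x ^ 2 - D ^ 2 y ^ 2)` is congruent if `D` is a square; `D` is divisible by all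
primes below `300` and by no other prime.  Let `b` be squarefree and `N` the product of the modulus
and of the squares of all primes `p ≤ δ log X`.  The curve `x y (x ^ 2 - D ^ 2 y ^ 2) = b` has at
least `N / K ^ ω(N)` points modulo `N` with `x` a unit, whose fibres over `x`, `x ± D y` have at
most `K ^ ω(N)` elements and over `y` at most `K ^ ω(N) g`, `g` the product of the primes dividing
`b` and `N`: for `p ∤ b` this uses the mean square of the sums of the characters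
`χ (t (t ^ 2 - k))` of order dividing `4` over `k`, for `p ∣ b` the solutions with `p ∣ y`.  The box
`x ∈ (D N h, (D + 1) N h]`, `y ≤ N h` with `(D + 1) N h ≤ X ^ (1/4)` contains `h ^ 2` pairs for every
point, and squares of the remaining primes are sieved out, uniformly in the modulus, by counting
the pairs with `p ^ 2 ∣ x`, `y`, `x ± D y` over the fibres.
-/

namespace Pool.Agent.Results.MP_8efaaa_nt.LargeModuliH64

/-- `x² + a y² = z²`, `x² - a y² = t²` is solvable in positive integers -/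
def Congruent (a : ℕ) : Prop :=
  ∃ x y z t : ℕ, 0 < x ∧ 0 < y ∧ 0 < z ∧ 0 < t ∧ x ^ 2 + a * y ^ 2 = z ^ 2 ∧
    x ^ 2 = a * y ^ 2 + t ^ 2

/-- **Squarefree congruent numbers in all classes to large moduli inside the classes `5, 6, 7`
modulo `8`.** -/
theorem result (ε : ℝ) (hε : 0 < ε) :
    (∃ X₀ : ℝ, ∀ X : ℝ, X₀ ≤ X → ∀ q a : ℕ, 1 ≤ q → (q : ℝ) ≤ X ^ (1 / 4 - ε) →
      (a % 8 = 5 ∨ a % 8 = 6 ∨ a % 8 = 7) → Squarefree (Nat.gcd a (8 * q)) →
        X ^ (1 / 2 - ε) / q ≤ ({n : ℕ | (n : ℝ) ≤ X ∧ Squarefree n ∧ n ≡ a [MOD 8 * q] ∧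
          Congruent n}.ncard : ℝ)) ∧
    (∃ C : ℝ, ∀ q a : ℕ, 1 ≤ q → (a % 8 = 5 ∨ a % 8 = 6 ∨ a % 8 = 7) →
      Squarefree (Nat.gcd a (8 * q)) →
        ∃ n : ℕ, (n : ℝ) ≤ C * (q : ℝ) ^ (4 + ε) ∧ Squarefree n ∧ n ≡ a [MOD 8 * q] ∧
          Congruent n) := by
  constructor
  · obtain ⟨s, hs, X₀, -, h⟩ := Pool.Agent.V7H64.CG.many ε hε
    refine ⟨X₀, fun X hX q a hq hqX _ ha => ?_⟩
    obtain ⟨S, hS1, hS2⟩ := h X hX q a hq hqX ha
    refine hS1.trans ?_
    have hfin : {n : ℕ | (n : ℝ) ≤ X ∧ Squarefree n ∧ n ≡ a [MOD 8 * q] ∧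
        Congruent n}.Finite := by
      apply (Set.finite_Iic ⌊X⌋₊).subset
      intro n hn
      exact Nat.le_floor hn.1
    have hsub : (S : Set ℕ) ⊆ {n : ℕ | (n : ℝ) ≤ X ∧ Squarefree n ∧ n ≡ a [MOD 8 * q] ∧
        Congruent n} := by
      intro n hn
      obtain ⟨m1, m2, m3, m4⟩ := hS2 n (Finset.mem_coe.1 hn)
      exact ⟨m1, m2, m3, Pool.Agent.V7H64.CG.cong_nat hs m4⟩
    have h1 := Set.ncard_le_ncard hsub hfin
    rw [Set.ncard_coe_finset] at h1
    exact_mod_cast h1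
  · obtain ⟨s, hs, C, -, h⟩ := Pool.Agent.V7H64.CG.least ε hε
    refine ⟨C, fun q a hq _ ha => ?_⟩
    obtain ⟨n, m1, m2, m3, m4⟩ := h q a hq ha
    exact ⟨n, m1, m2, m3, Pool.Agent.V7H64.CG.cong_nat hs m4⟩

end Pool.Agent.Results.MP_8efaaa_nt.LargeModuliH64
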